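import Mathlib
import Pool.Agent.Run7.h883.RootedTree

/-!
# A triplet cover of a binary phylogenetic tree that is not shellable

We give a binary phylogenetic tree with 12 leaves and a triplet cover of it (with 27 pairs) that is
not shellable.  A set of 2-subsets of the finite set `X` is represented by a simple graph on `X`
(a pair `ab` belongs to the set if and only if `a` and `b` are adjacent).
-/

set_option autoImplicit false

namespace Pool.Agent.Results.MP_66d22e_co.NonShellableCover

variable {X W : Type}

/-- `T` (on the vertex type `W`) is a binary phylogenetic `X`-tree, whose leaves are labelled by `X`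
through `leaf`: it is a tree, `leaf` is injective, the vertices `leaf x` have degree `1`, and all
other vertices have degree `3`. -/
def IsBinaryPhyloTree (T : SimpleGraph W) (leaf : X → W) : Prop :=
  T.IsTree ∧ Function.Injective leaf ∧
    (∀ w, w ∈ Set.range leaf → (T.neighborSet w).ncard = 1) ∧
    (∀ w, w ∉ Set.range leaf → (T.neighborSet w).ncard = 3)

/-- `a` and `b` lie in different connected components of `T` with the vertex `v` removed. -/
def Separates (T : SimpleGraph W) (v a b : W) : Prop :=
  a ≠ v ∧ b ≠ v ∧ ∀ p : T.Walk a b, v ∈ p.support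

/-- `C` is a triplet cover for `T`: every interior vertex `v` is supported by some `abc`, that is,
`a, b, c` lie in three different components of `T - v` and `ab`, `ac`, `bc` belong to `C`. -/
def IsTripletCover (T : SimpleGraph W) (leaf : X → W) (C : SimpleGraph X) : Prop :=
  ∀ v, v ∉ Set.range leaf → ∃ a b c : X,
    Separates T v (leaf a) (leaf b) ∧ Separates T v (leaf a) (leaf c) ∧
    Separates T v (leaf b) (leaf c) ∧ C.Adj a b ∧ C.Adj a c ∧ C.Adj b c

/-- The restriction of `T` to `{x, a, y, b}` is the quartet `xa|yb`: the path from `x` to `a` and the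
path from `y` to `b` are vertex-disjoint. -/
def Quartet (T : SimpleGraph W) (leaf : X → W) (x a y b : X) : Prop :=
  ∃ (p : T.Walk (leaf x) (leaf a)) (q : T.Walk (leaf y) (leaf b)),
    p.IsPath ∧ q.IsPath ∧ List.Disjoint p.support q.support

/-- `C` is `T`-shellable: the 2-subsets of `X` outside `C` can be ordered as a list
`[a_1 b_1, …, a_m b_m]` such that for every `i` there are distinct `x, y` outside `{a_i, b_i}` such
that `T` restricts to the quartet `x a_i | y b_i` on `Y = {a_i, b_i, x, y}` and every pair in `Y` other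
than `a_i b_i` belongs to `C` or is some `a_j b_j` with `j < i`. -/
def IsShellable (T : SimpleGraph W) (leaf : X → W) (C : SimpleGraph X) : Prop :=
  ∃ l : List (Sym2 X), l.Nodup ∧ (∀ e, e ∈ l ↔ ¬ e.IsDiag ∧ e ∉ C.edgeSet) ∧
    ∀ (i : ℕ) (hi : i < l.length), ∃ a b x y : X, l[i] = s(a, b) ∧ x ≠ y ∧
      x ≠ a ∧ x ≠ b ∧ y ≠ a ∧ y ≠ b ∧ Quartet T leaf x a y b ∧
      ∀ e ∈ [s(x, a), s(x, b), s(y, a), s(y, b), s(x, y)], e ∈ C.edgeSet ∨ e ∈ l.take i

/-! ### The tree -/

/-- the parents of the vertices `0, …, 21`, the root being `12` -/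
def parList : List (Fin 22) :=
  [20, 13, 15, 14, 14, 15, 16, 17, 18, 19, 20, 21, 12, 17, 19, 16, 18, 21, 12, 13, 12, 12]

/-- the depths of the vertices -/
def depList : List ℕ := [2, 4, 4, 6, 6, 4, 3, 3, 2, 5, 2, 2, 0, 3, 5, 3, 2, 2, 1, 4, 1, 1]

def par (v : Fin 22) : Fin 22 := parList.getD v.val 0

def dep (v : Fin 22) : ℕ := depList.getD v.val 0

def adjb (u v : Fin 22) : Bool := (u != 12 && par u == v) || (v != 12 && par v == u)

def T : SimpleGraph (Fin 22) where
  Adj u v := adjb u v = true
  symm := ⟨by decide⟩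
  loopless := ⟨by decide⟩

instance : DecidableRel T.Adj := fun u v => inferInstanceAs (Decidable (adjb u v = true))

def leaf (x : Fin 12) : Fin 22 := x.castLE (by norm_num)

theorem T_isTree : T.IsTree := by
  refine Run7.h883.isTree_of_parent T 12 par dep (by decide) ?_
  have h : ∀ u v : Fin 22, adjb u v = true ↔ (u ≠ 12 ∧ par u = v) ∨ (v ≠ 12 ∧ par v = u) := by
    decide
  exact h

/-! ### Paths in the tree -/

/-- the list of the vertices on the way from `v` to the root -/
def up : ℕ → Fin 22 → List (Fin 22)
  | 0, v => [v]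
  | n + 1, v => if v = 12 then [12] else v :: up n (par v)

/-- auxiliary function for `pth` -/
def strip (c : Fin 22) : List (Fin 22) → List (Fin 22) → List (Fin 22)
  | a :: as, b :: bs =>
    if a = b then strip a as bs else (a :: as).reverse ++ c :: b :: bs
  | as, bs => as.reverse ++ c :: bs

/-- the vertices of the path from `x` to `y` -/
def pth (x y : Fin 22) : List (Fin 22) := strip 12 (up 7 x).reverse (up 7 y).reverse

def chk (x y : Fin 22) : Bool :=
  (pth x y).head? == some x && (pth x y).getLast? == some y &&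
    decide ((pth x y).Nodup) && decide (List.IsChain (fun u v => adjb u v = true) (pth x y))

theorem chk_all : ∀ x y : Fin 22, chk x y = true := by decide +kernel

theorem exists_walk {V : Type} {G : SimpleGraph V} {x y : V} (l : List V) (hne : l ≠ [])
    (hc : l.IsChain G.Adj) (hnd : l.Nodup) (hx : l.head hne = x) (hy : l.getLast hne = y) :
    ∃ p : G.Walk x y, p.IsPath ∧ p.support = l := by
  subst hx hy
  refine ⟨SimpleGraph.Walk.ofSupport l hne hc, ?_, by rw [SimpleGraph.Walk.support_ofSupport]⟩
  rw [SimpleGraph.Walk.isPath_def, SimpleGraph.Walk.support_ofSupport]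
  exact hnd

theorem exists_path (x y : Fin 22) : ∃ p : T.Walk x y, p.IsPath ∧ p.support = pth x y := by
  have h := chk_all x y
  simp only [chk, Bool.and_eq_true, beq_iff_eq, decide_eq_true_eq] at h
  obtain ⟨⟨⟨h1, h2⟩, h3⟩, h4⟩ := h
  have hne : pth x y ≠ [] := by
    intro h0
    rw [h0] at h1
    simp at h1
  refine exists_walk (pth x y) hne h4 h3 ?_ ?_
  · rw [List.head?_eq_some_head hne] at h1
    exact Option.some_injective _ h1
  · rw [List.getLast?_eq_some_getLast hne] at h2
    exact Option.some_injective _ h2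

theorem support_eq {x y : Fin 22} (p : T.Walk x y) (hp : p.IsPath) : p.support = pth x y := by
  obtain ⟨q, hq, hqs⟩ := exists_path x y
  have h := (T_isTree.isAcyclic.subsingleton_path x y).elim ⟨p, hp⟩ ⟨q, hq⟩
  have h2 : p = q := congrArg Subtype.val h
  rw [h2, hqs]

theorem mem_support {x y v : Fin 22} (h : v ∈ pth x y) (p : T.Walk x y) : v ∈ p.support := by
  classical
  have h1 := support_eq p.bypass p.bypass_isPath
  rw [← h1] at h
  exact p.support_bypass_subset_support h

/-! ### The cover -/

/-- the supporting triples of the interior vertices `12, …, 21` -/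
def triples : List (Fin 12 × Fin 12 × Fin 12) :=
  [(5, 10, 7), (1, 0, 4), (3, 1, 4), (2, 3, 5), (2, 9, 6), (1, 6, 7), (6, 9, 8), (4, 11, 9),
    (0, 8, 10), (7, 5, 11)]

def coverb (a b : Fin 12) : Bool :=
  a != b && triples.any fun t =>
    (a == t.1 || a == t.2.1 || a == t.2.2) && (b == t.1 || b == t.2.1 || b == t.2.2)

def C : SimpleGraph (Fin 12) where
  Adj a b := coverb a b = true
  symm := ⟨by decide⟩
  loopless := ⟨by decide⟩

/-- the closure of the cover -/
def kList : List (Fin 12 × Fin 12) :=
  [(0, 1), (0, 3), (0, 4), (0, 8), (0, 10), (1, 3), (1, 4), (1, 6), (1, 7), (2, 3), (2, 5), (2, 6),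
    (2, 8), (2, 9), (3, 4), (3, 5), (4, 9), (4, 11), (5, 7), (5, 10), (5, 11), (6, 7), (6, 8),
    (6, 9), (7, 10), (7, 11), (8, 9), (8, 10), (9, 11), (10, 11)]

def kb (a b : Fin 12) : Bool := kList.contains (a, b) || kList.contains (b, a)

theorem kb_symm : ∀ a b : Fin 12, kb a b = kb b a := by decide +kernel

theorem cover_sub : ∀ a b : Fin 12, coverb a b = true → kb a b = true := by decide +kernel

def meets (x a y b : Fin 12) : Bool :=
  (pth (leaf x) (leaf a)).any fun z => (pth (leaf y) (leaf b)).contains z

theorem closed : ∀ a b : Fin 12, kb a b = false → ∀ x : Fin 12, kb x a = true → kb x b = true →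
    ∀ y : Fin 12, kb y a = true → kb y b = true → kb x y = true → a ≠ b →
    meets x a y b = true := by decide +kernel

def supp (v : Fin 22) (t : Fin 12 × Fin 12 × Fin 12) : Bool :=
  ((pth (leaf t.1) (leaf t.2.1)).contains v && (pth (leaf t.1) (leaf t.2.2)).contains v &&
    (pth (leaf t.2.1) (leaf t.2.2)).contains v) &&
    (coverb t.1 t.2.1 && coverb t.1 t.2.2 && coverb t.2.1 t.2.2)

theorem supp_all : ∀ v : Fin 22, 12 ≤ v.val → supp v (triples.getD (v.val - 12) (0, 0, 0)) = true := by
  decide +kernel

theorem leaf_lt (x : Fin 12) : (leaf x).val < 12 := x.isLt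

theorem range_leaf (w : Fin 22) : w ∈ Set.range leaf ↔ w.val < 12 := by
  constructor
  · rintro ⟨x, rfl⟩
    exact x.isLt
  · intro h
    exact ⟨⟨w.val, h⟩, rfl⟩

theorem isCover : IsTripletCover T leaf C := by
  intro v hv
  have hv' : 12 ≤ v.val := by
    rw [range_leaf] at hv
    omega
  have h := supp_all v hv'
  generalize triples.getD (v.val - 12) (0, 0, 0) = t at h
  obtain ⟨a, b, c⟩ := t
  simp only [supp, Bool.and_eq_true, List.contains_iff_mem] at h
  obtain ⟨⟨⟨h1, h2⟩, h3⟩, ⟨h4, h5⟩, h6⟩ := h
  have hne : ∀ x : Fin 12, leaf x ≠ v := by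
    intro x hx
    have := leaf_lt x
    rw [hx] at this
    omega
  exact ⟨a, b, c, ⟨hne a, hne b, fun p => mem_support h1 p⟩, ⟨hne a, hne c, fun p => mem_support h2 p⟩,
    ⟨hne b, hne c, fun p => mem_support h3 p⟩, h4, h5, h6⟩

theorem degs : ∀ w : Fin 22, (Finset.univ.filter fun u => adjb w u = true).card =
    if w.val < 12 then 1 else 3 := by decide +kernel

theorem deg (w : Fin 22) : (T.neighborSet w).ncard = if w.val < 12 then 1 else 3 := by
  rw [← degs w, ← Set.ncard_coe_finset]
  congr 1
  ext u
  simp only [SimpleGraph.mem_neighborSet, Finset.coe_filter, Finset.mem_univ, true_and,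
    Set.mem_ofPred_eq]
  rfl

theorem isPhylo : IsBinaryPhyloTree T leaf := by
  refine ⟨T_isTree, ?_, ?_, ?_⟩
  · intro x y h
    have := congrArg Fin.val h
    exact Fin.ext this
  · intro w hw
    rw [range_leaf] at hw
    rw [deg, if_pos hw]
  · intro w hw
    rw [range_leaf] at hw
    rw [deg, if_neg hw]

theorem not_shellable : ¬ IsShellable T leaf C := by
  rintro ⟨l, hnd, hmem, hstep⟩
  have key : ∀ n : ℕ, ∀ hn : n < l.length, ∀ a b : Fin 12, l[n] = s(a, b) → kb a b = true := by
    intro n
    induction n using Nat.strong_induction_on with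
    | _ n ih =>
      intro hn a b hab
      obtain ⟨a', b', x, y, hl, hxy, hxa, hxb, hya, hyb, ⟨p, q, hp, hq, hdis⟩, hall⟩ := hstep n hn
      have hk : ∀ u v : Fin 12, s(u, v) ∈ [s(x, a'), s(x, b'), s(y, a'), s(y, b'), s(x, y)] →
          kb u v = true := by
        intro u v huv
        rcases hall _ huv with h | h
        · exact cover_sub u v h
        · rw [List.mem_take_iff_getElem] at h
          obtain ⟨j, hj, hj'⟩ := h
          exact ih j (by omega) (by omega) u v hj'
      have h1 := hk x a' (by simp)
      have h2 := hk x b' (by simp)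
      have h3 := hk y a' (by simp)
      have h4 := hk y b' (by simp)
      have h5 := hk x y (by simp)
      have hne : a' ≠ b' := by
        rintro rfl
        have h6 := ((hmem l[n]).1 (List.getElem_mem hn)).1
        rw [hl] at h6
        exact h6 (Sym2.mk_isDiag_iff.2 rfl)
      have h6 : kb a' b' = true := by
        by_contra hcon
        rw [Bool.not_eq_true] at hcon
        have h7 := closed a' b' hcon x h1 h2 y h3 h4 h5 hne
        rw [meets, List.any_eq_true] at h7
        obtain ⟨z, hz1, hz2⟩ := h7
        rw [List.contains_iff_mem] at hz2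
        rw [support_eq p hp, support_eq q hq] at hdis
        exact hdis hz1 hz2
      rw [hl] at hab
      rcases Sym2.eq_iff.1 hab with ⟨rfl, rfl⟩ | ⟨rfl, rfl⟩
      · exact h6
      · rw [kb_symm]; exact h6
  have h1 : s((0 : Fin 12), (2 : Fin 12)) ∈ l := by
    rw [hmem]
    refine ⟨by decide, ?_⟩
    intro h
    have h2 : coverb 0 2 = true := h
    revert h2
    decide
  obtain ⟨n, hn, hn'⟩ := List.getElem_of_mem h1
  have h2 := key n hn 0 2 hn'
  revert h2
  decide

/-- **Q1 of MP_66d22e_co, negative answer.**  There are a finite set `X` (with 12 elements), a binary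
phylogenetic `X`-tree and a triplet cover of it that is not shellable. -/
theorem result : ∃ (X W : Type) (_ : Fintype X) (_ : Fintype W) (T : SimpleGraph W) (leaf : X → W)
    (C : SimpleGraph X), Fintype.card X = 12 ∧ IsBinaryPhyloTree T leaf ∧ IsTripletCover T leaf C ∧
      ¬ IsShellable T leaf C :=
  ⟨Fin 12, Fin 22, inferInstance, inferInstance, T, leaf, C, Fintype.card_fin 12, isPhylo, isCover,
    not_shellable⟩

end Pool.Agent.Results.MP_66d22e_co.NonShellableCover
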